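import Pool.Agent.T6.H82.HC.Main

/-!
# Admissible triples with a small `H (abc)`, by the pigeonhole principle

`H (n) = γ (n) / (log γ (n)) ^ ω (n)`. For every `K < 2 + 4 log (3/2) = 3.6218…` there are
infinitely many admissible triples with `c > H exp (K log H / log log H)`,
`H = max (H (abc), e ^ e)`. Here `b` and `c` are products of odd primes `≤ y` which agree modulo a
large power of two; `b` and `c` come from one pair in a large family of products all of which
have the same residue and about the same size.
-/

set_option autoImplicit false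

namespace Pool.Agent.Results.MP_14cf73_nt.PigeonholeConstant

open Filter Topology

/-- `γ(n)`, the product of the primes dividing `n` -/
def radical (n : ℕ) : ℕ := ∏ p ∈ n.primeFactors, p

/-- `ω(n)`, the number of primes dividing `n` -/
def omega (n : ℕ) : ℕ := n.primeFactors.card

/-- `H(n) = γ(n) / (log γ(n)) ^ ω(n)` -/
noncomputable def H (n : ℕ) : ℝ := (radical n : ℝ) / Real.log (radical n : ℝ) ^ omega n

/-- `max (H(n), e ^ e)` -/
noncomputable def H' (n : ℕ) : ℝ := max (H n) (Real.exp (Real.exp 1))

theorem H_eq (n : ℕ) : H n = Pool.Agent.T6.H82.HC.H n := rfl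

/-- `x / log x` increases for `x ≥ e` -/
theorem div_log_mono {s t : ℝ} (hs : Real.exp 1 ≤ s) (hst : s ≤ t) :
    s / Real.log s ≤ t / Real.log t := by
  have he0 : 0 < Real.exp 1 := Real.exp_pos 1
  have he1 : 1 < Real.exp 1 := Real.one_lt_exp_iff.mpr one_pos
  have h6 := Real.log_div_self_antitoneOn (a := s) (b := t) hs (hs.trans hst) hst
  simp only at h6
  have h7 : 0 < Real.log t := Real.log_pos (by linarith)
  have h8 : 0 < Real.log s := Real.log_pos (by linarith)
  rw [div_le_div_iff₀ h8 h7]
  rw [div_le_div_iff₀ (by linarith) (by linarith)] at h6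
  linarith

/-- **A larger constant.** For every `K < 2 + 4 log (3/2) = 3.6218…` and every `X` there is an
admissible triple with `c > X` and `c > H exp (K log H / log log H)` where
`H = max (H(abc), e ^ e)`. -/
theorem result (K : ℝ) (hK : K < 2 + 4 * Real.log (3 / 2)) (X : ℝ) :
    ∃ a b c : ℕ, 0 < a ∧ 0 < b ∧ a + b = c ∧ Nat.Coprime a b ∧ X < c ∧
      H' (a * b * c) * Real.exp (K * Real.log (H' (a * b * c)) /
        Real.log (Real.log (H' (a * b * c)))) < c := by
  set K' : ℝ := max K 2 with hK'
  have hK'2 : 2 ≤ K' := le_max_right _ _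
  have hKK' : K ≤ K' := le_max_left _ _
  have hl32 : 0 < Real.log (3 / 2 : ℝ) := Real.log_pos (by norm_num)
  have hK'1 : K' < 2 + 4 * Real.log (3 / 2) := max_lt hK (by linarith)
  set B : ℝ := Real.exp 1 + K' * Real.exp 1 + |Real.log (max X 1)| with hB
  have hBpos : 0 < B := by positivity
  -- a large `y`
  have hxl : ∀ᶠ x : ℝ in atTop, B ≤ x / (2 * Real.log x) := by
    have h1 : Tendsto (fun x : ℝ => Real.log x / x) atTop (𝓝 0) := by
      have := Real.isLittleO_log_id_atTop.tendsto_div_nhds_zero
      simpa using this
    filter_upwards [h1.eventually (gt_mem_nhds (show (0 : ℝ) < 1 / (2 * B) by positivity)),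
      eventually_gt_atTop 1] with x h2 h3
    have hx0 : 0 < x := by linarith
    have hlx : 0 < Real.log x := Real.log_pos h3
    rw [div_lt_div_iff₀ hx0 (by positivity)] at h2
    rw [le_div_iff₀ (by positivity)]
    linarith
  obtain ⟨y, ⟨a, b, c, ha, hb, habc, hcop, hH0, hyc, hV⟩, hyB⟩ :=
    ((Pool.Agent.T6.H82.HC.exists_good hK'2 hK'1).and
      ((tendsto_natCast_atTop_atTop (R := ℝ)).eventually hxl)).exists
  have hc0 : (0 : ℝ) < (c : ℝ) := by
    have : 0 < c := by omega
    exact_mod_cast this
  set L : ℝ := Real.log (c : ℝ) with hL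
  have hLB : B < L := lt_of_le_of_lt hyB hyc
  have hcL : (c : ℝ) = Real.exp L := by rw [hL, Real.exp_log hc0]
  have he0 : 0 < Real.exp 1 := Real.exp_pos 1
  refine ⟨a, b, c, ha, hb, habc, hcop, ?_, ?_⟩
  · have hX1 : 0 < max X 1 := lt_of_lt_of_le one_pos (le_max_right _ _)
    have h3 : Real.log (max X 1) < L := by
      refine lt_of_le_of_lt (le_abs_self _) ?_
      have : 0 ≤ K' * Real.exp 1 := by positivity
      linarith
    calc X ≤ max X 1 := le_max_left _ _
      _ = Real.exp (Real.log (max X 1)) := (Real.exp_log hX1).symm
      _ < Real.exp L := Real.exp_lt_exp.mpr h3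
      _ = (c : ℝ) := hcL.symm
  · rw [← H_eq] at hH0 hV
    set h : ℝ := H' (a * b * c) with hh
    have hE : Real.log (Real.exp (Real.exp 1)) = Real.exp 1 := Real.log_exp _
    have hhE : Real.exp (Real.exp 1) ≤ h := le_max_right _ _
    have hh0 : 0 < h := lt_of_lt_of_le (Real.exp_pos _) hhE
    have hlh : Real.exp 1 ≤ Real.log h := by
      rw [← hE]
      exact Real.log_le_log (Real.exp_pos _) hhE
    have hlh0 : 0 < Real.log h := by linarith
    have hllh : 1 ≤ Real.log (Real.log h) := by
      have := Real.log_le_log he0 hlh
      rwa [Real.log_exp] at this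
    have hmain : Real.log h + K' * (Real.log h / Real.log (Real.log h)) < L := by
      rcases le_total (H (a * b * c)) (Real.exp (Real.exp 1)) with hcase | hcase
      · have h3 : h = Real.exp (Real.exp 1) := max_eq_right hcase
        rw [h3, hE, Real.log_exp, div_one]
        refine lt_of_le_of_lt ?_ hLB
        rw [hB]
        have : 0 ≤ |Real.log (max X 1)| := abs_nonneg _
        linarith
      · have h3 : h = H (a * b * c) := max_eq_left hcase
        rw [← h3] at hV
        have hL1 : 1 ≤ L := by
          have h4 : 1 ≤ Real.exp 1 := Real.one_le_exp (by norm_num)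
          have h5 : 0 ≤ K' * Real.exp 1 := by positivity
          have h6 : 0 ≤ |Real.log (max X 1)| := abs_nonneg _
          linarith
        have hfrac0 : 0 ≤ K' * (L / Real.log L) := by
          have := Real.log_nonneg hL1
          positivity
        have hlhL : Real.log h ≤ L := by linarith
        have h5 := mul_le_mul_of_nonneg_left (div_log_mono hlh hlhL)
          (show 0 ≤ K' by linarith)
        linarith
    have h10 : K * Real.log h / Real.log (Real.log h) ≤
        K' * (Real.log h / Real.log (Real.log h)) := by
      rw [mul_div_assoc]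
      have : 0 ≤ Real.log h / Real.log (Real.log h) := by positivity
      exact mul_le_mul_of_nonneg_right hKK' this
    calc h * Real.exp (K * Real.log h / Real.log (Real.log h))
        = Real.exp (Real.log h + K * Real.log h / Real.log (Real.log h)) := by
          rw [Real.exp_add, Real.exp_log hh0]
      _ < Real.exp L := by
          apply Real.exp_lt_exp.mpr
          linarith
      _ = (c : ℝ) := hcL.symm

end Pool.Agent.Results.MP_14cf73_nt.PigeonholeConstant
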