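import Pool.Agent.Results.MP_14cf73_nt.ExceptionsByHeight
import Pool.Agent.T6.H23.TB.NatMembers

/-!
# The inequality `c < C H (abc) ^ M` on thin random bases

`H (n) = γ (n) / (log γ (n)) ^ ω (n)`. Let `A` be a random set of natural numbers: the events `n ∈ A` are independent and
`n ≥ 1` is chosen with probability `n ^ (-α)`. For `α < 1 / 2` almost every such set, which has about `T ^ (1 - α)`
elements up to `T`, is an additive basis of order two: each large `n` has at least `n ^ (1 - 2 α - δ)` representations as a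
sum of two coprime elements of `A`. For `α ≥ 1 / 3` and all `C, ε > 0`, all but finitely many admissible triples whose two
largest members are in `A` satisfy the inequality `c < C H (abc) ^ (1 + ε)` of the problem (and, for `α > 1 / 3`, even
`c < C H (abc) ^ M` for all `M > 1 / (3 α)`, in particular for some `M < 1`).
-/

set_option autoImplicit false

namespace Pool.Agent.Results.MP_14cf73_nt.RandomBases

open MeasureTheory ProbabilityTheory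

/-- `γ(n)`, the product of the primes dividing `n` -/
def radical (n : ℕ) : ℕ := ∏ p ∈ n.primeFactors, p

/-- `ω(n)`, the number of primes dividing `n` -/
def omega (n : ℕ) : ℕ := n.primeFactors.card

/-- `H(n) = γ(n) / (log γ(n)) ^ ω(n)` -/
noncomputable def H (n : ℕ) : ℝ := (radical n : ℝ) / Real.log (radical n : ℝ) ^ omega n

/-- the admissible triples `(a, b, c)`, `c = a + b`, written `(a, b)`, with `c ≥ C H(abc) ^ M` -/
def Exceptions (C M : ℝ) : Set (ℕ × ℕ) :=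
  {p | 0 < p.1 ∧ 0 < p.2 ∧ Nat.Coprime p.1 p.2 ∧ C * H (p.1 * p.2 * (p.1 + p.2)) ^ M ≤ ((p.1 + p.2 : ℕ) : ℝ)}

/-- the random sets of natural numbers of density `n ^ (-α)`: `R n` is the event that `n` is chosen -/
structure IsRandomSet (α : ℝ) {Ω : Type} [MeasurableSpace Ω] (μ : Measure Ω) (R : ℕ → Set Ω) : Prop where
  prob : IsProbabilityMeasure μ
  meas : ∀ n, MeasurableSet (R n)
  indep : iIndepSet R μ
  density : ∀ n, n ≠ 0 → μ (R n) = ENNReal.ofReal ((n : ℝ) ^ (-α))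

/-- the `a < n / 2` such that `n = a + (n - a)` is a sum of two coprime elements of `A`, both at least `n ^ κ` -/
def Reps (A : Set ℕ) (κ : ℝ) (n : ℕ) : Set ℕ :=
  {a | 2 * a < n ∧ a ∈ A ∧ n - a ∈ A ∧ Nat.Coprime a (n - a) ∧ (n : ℝ) ^ κ ≤ a}

theorem H_nonneg (n : ℕ) : 0 ≤ H n :=
  div_nonneg (Nat.cast_nonneg _) (pow_nonneg (ExceptionsByHeight.log_nonneg' n) _)

theorem mono {C C' M M' : ℝ} (h1 : 0 ≤ C') (h2 : C' ≤ C) (h3 : C' ≤ 1) (h4 : 0 < M') (h5 : M' ≤ M) :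
    Exceptions C M ⊆ Exceptions C' M' := by
  rintro p ⟨a1, a2, a3, a4⟩
  refine ⟨a1, a2, a3, ?_⟩
  have hc : (1 : ℝ) ≤ ((p.1 + p.2 : ℕ) : ℝ) := by exact_mod_cast (by omega : 1 ≤ p.1 + p.2)
  rcases le_total 1 (H (p.1 * p.2 * (p.1 + p.2))) with h | h
  · refine le_trans ?_ a4
    exact mul_le_mul h2 (Real.rpow_le_rpow_of_exponent_le h h5) (by positivity) (h1.trans h2)
  · have h6 : H (p.1 * p.2 * (p.1 + p.2)) ^ M' ≤ 1 := Real.rpow_le_one (H_nonneg _) h h4.le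
    have h7 : C' * H (p.1 * p.2 * (p.1 + p.2)) ^ M' ≤ 1 :=
      mul_le_one₀ h3 (Real.rpow_nonneg (H_nonneg _) _) h6
    linarith

theorem count (C M ε : ℝ) (hC : 0 < C) (hM : 0 < M) (hε : 0 < ε) : ∃ K : ℝ, ∀ X : ℝ, 1 ≤ X →
    {t | t ∈ Exceptions C M ∧ Pool.Agent.T6.H23.TB.NN.ht t ≤ X}.Finite ∧
      ({t | t ∈ Exceptions C M ∧ Pool.Agent.T6.H23.TB.NN.ht t ≤ X}.ncard : ℝ) ≤ K * X ^ (2 / (3 * M) + ε) := by
  obtain ⟨K, _, hK⟩ := ExceptionsByHeight.result C M ε hC hM hε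
  refine ⟨K, fun X hX => ?_⟩
  obtain ⟨hfin, hcard⟩ := hK X hX
  have hsub : {t | t ∈ Exceptions C M ∧ Pool.Agent.T6.H23.TB.NN.ht t ≤ X} ⊆ ExceptionsByHeight.exceptions C M X := by
    rintro t ⟨⟨a1, a2, a3, a4⟩, htX⟩
    exact ⟨a1, a2, a3, htX, a4⟩
  refine ⟨hfin.subset hsub, le_trans ?_ hcard⟩
  exact_mod_cast Set.ncard_le_ncard hsub hfin

/-- a rational `M' < M` with `2 / (3 M')` still below `β` -/
theorem exists_rat (M β : ℝ) (hM : 0 < M) (h : 2 / (3 * M) < β) : ∃ q : ℚ, 0 < (q : ℝ) ∧ (q : ℝ) ≤ M ∧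
    2 / (3 * (q : ℝ)) < β := by
  have hβ : 0 < β := lt_trans (by positivity) h
  have h1 : 2 / (3 * β) < M := by
    rw [div_lt_iff₀ (by positivity)] at h ⊢
    linarith
  obtain ⟨q, hq1, hq2⟩ := exists_rat_btwn h1
  have hq0 : 0 < (q : ℝ) := lt_trans (by positivity) hq1
  refine ⟨q, hq0, hq2.le, ?_⟩
  rw [div_lt_iff₀ (by positivity)] at hq1 ⊢
  linarith

/-- **Theorem.** Let `α > 0`. Random sets of density `n ^ (-α)` exist, and almost every such set `A` has the following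
properties. (1) For all `C, M > 0` with `2 / (3 M) < α` only finitely many admissible triples with `c` or `max (a, b)` in
`A` have `c ≥ C H (abc) ^ M`. (2) The same for all `C, M > 0` with `2 / (3 M) < 2 α` and the triples with `c` and
`max (a, b)` in `A`; so for `α ≥ 1 / 3` they satisfy the inequality of Q1. (3) The same for all `C, M, η > 0`, `κ ≥ 0` with
`2 / (3 M) < (2 + κ) α` and the triples with `a`, `b`, `c` in `A` and `min (a, b) ≥ η c ^ κ`. (4) If `α < 1 / 2`, then for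
all `δ > 0` and `κ < 1` each large `n` has at least `n ^ (1 - 2 α - δ)` representations as a sum of two coprime elements of
`A`, both at least `n ^ κ`. (5) If `α < 1`, the number of elements of `A` up to `T` is `T ^ (1 - α + o(1))`. -/
theorem result (α : ℝ) (hα : 0 < α) :
    (∃ (Ω : Type) (_ : MeasurableSpace Ω) (μ : Measure Ω) (R : ℕ → Set Ω), IsRandomSet α μ R) ∧
    ∀ (Ω : Type) [MeasurableSpace Ω] (μ : Measure Ω) (R : ℕ → Set Ω), IsRandomSet α μ R →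
      ∀ᵐ ω ∂μ,
        (∀ C M : ℝ, 0 < C → 0 < M → 2 / (3 * M) < α →
          {p | p ∈ Exceptions C M ∧ (ω ∈ R (max p.1 p.2) ∨ ω ∈ R (p.1 + p.2))}.Finite) ∧
        (∀ C M : ℝ, 0 < C → 0 < M → 2 / (3 * M) < 2 * α →
          {p | p ∈ Exceptions C M ∧ ω ∈ R (max p.1 p.2) ∧ ω ∈ R (p.1 + p.2)}.Finite) ∧
        (∀ C M κ η : ℝ, 0 < C → 0 < M → 0 ≤ κ → 0 < η → 2 / (3 * M) < (2 + κ) * α →
          {p | p ∈ Exceptions C M ∧ ω ∈ R p.1 ∧ ω ∈ R p.2 ∧ ω ∈ R (p.1 + p.2) ∧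
            η * ((p.1 + p.2 : ℕ) : ℝ) ^ κ ≤ ((min p.1 p.2 : ℕ) : ℝ)}.Finite) ∧
        (α < 1 / 2 → ∀ δ κ : ℝ, 0 < δ → κ < 1 → ∃ n₀ : ℕ, ∀ n : ℕ, n₀ ≤ n →
          (n : ℝ) ^ (1 - 2 * α - δ) ≤ ((Reps {m | ω ∈ R m} κ n).ncard : ℝ)) ∧
        (α < 1 → ∀ δ : ℝ, 0 < δ →
          (∃ T₀ : ℝ, ∀ T : ℝ, T₀ ≤ T → T ^ (1 - α - δ) ≤ ({m : ℕ | ω ∈ R m ∧ (m : ℝ) ≤ T}.ncard : ℝ)) ∧
          ∃ K : ℝ, ∀ T : ℝ, 1 ≤ T → ({m : ℕ | ω ∈ R m ∧ (m : ℝ) ≤ T}.ncard : ℝ) ≤ K * T ^ (1 - α + δ)) := by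
  refine ⟨?_, fun Ω _ μ R hR => ?_⟩
  · obtain ⟨Ω, m, μ, R, h⟩ := Pool.Agent.T6.H23.TB.NN.exists_randomSet α hα
    exact ⟨Ω, m, μ, R, h.prob, h.meas, h.indep, h.density⟩
  have h : Pool.Agent.T6.H23.TB.NN.IsRandomSet α μ R := ⟨hR.prob, hR.meas, hR.indep, hR.density⟩
  have hk1 : ∀ k : ℕ, (0 : ℝ) < 1 / ((k : ℝ) + 1) := fun k => by positivity
  -- (1)
  have p1 : ∀ᵐ ω ∂μ, ∀ k : ℕ, ∀ q : ℚ, 0 < (q : ℝ) → 2 / (3 * (q : ℝ)) < α →
      {p | p ∈ Exceptions (1 / ((k : ℝ) + 1)) q ∧ (ω ∈ R (max p.1 p.2) ∨ ω ∈ R (p.1 + p.2))}.Finite := by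
    rw [ae_all_iff]
    intro k
    rw [ae_all_iff]
    intro q
    by_cases hq : 0 < (q : ℝ) ∧ 2 / (3 * (q : ℝ)) < α
    · obtain ⟨K, hK⟩ := count (1 / ((k : ℝ) + 1)) q ((α - 2 / (3 * (q : ℝ))) / 2) (hk1 k) hq.1 (by linarith [hq.2])
      filter_upwards [Pool.Agent.T6.H23.TB.NN.one_member h hα (Exceptions (1 / ((k : ℝ) + 1)) q) K _
        (by linarith [hq.2]) (fun t ht => ⟨ht.1, ht.2.1⟩) hK] with ω hω
      intro _ _
      exact hω
    · exact Filter.Eventually.of_forall (fun ω h3 h4 => absurd ⟨h3, h4⟩ hq)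
  -- (2)
  have p2 : ∀ᵐ ω ∂μ, ∀ k : ℕ, ∀ q : ℚ, 0 < (q : ℝ) → 2 / (3 * (q : ℝ)) < 2 * α →
      {p | p ∈ Exceptions (1 / ((k : ℝ) + 1)) q ∧ ω ∈ R (max p.1 p.2) ∧ ω ∈ R (p.1 + p.2)}.Finite := by
    rw [ae_all_iff]
    intro k
    rw [ae_all_iff]
    intro q
    by_cases hq : 0 < (q : ℝ) ∧ 2 / (3 * (q : ℝ)) < 2 * α
    · obtain ⟨K, hK⟩ := count (1 / ((k : ℝ) + 1)) q ((2 * α - 2 / (3 * (q : ℝ))) / 2) (hk1 k) hq.1 (by linarith [hq.2])
      filter_upwards [Pool.Agent.T6.H23.TB.NN.two_members h hα (Exceptions (1 / ((k : ℝ) + 1)) q) K _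
        (by linarith [hq.2]) (fun t ht => ⟨ht.1, ht.2.1⟩) hK] with ω hω
      intro _ _
      exact hω
    · exact Filter.Eventually.of_forall (fun ω h3 h4 => absurd ⟨h3, h4⟩ hq)
  -- (3)
  have p3 : ∀ᵐ ω ∂μ, ∀ k n : ℕ, ∀ q r : ℚ, 0 < (q : ℝ) → 0 ≤ (r : ℝ) → 2 / (3 * (q : ℝ)) < (2 + r) * α →
      {p | p ∈ Exceptions (1 / ((k : ℝ) + 1)) q ∧ ω ∈ R p.1 ∧ ω ∈ R p.2 ∧ ω ∈ R (p.1 + p.2) ∧
        1 / ((n : ℝ) + 1) * Pool.Agent.T6.H23.TB.NN.ht p ^ (r : ℝ) ≤ ((min p.1 p.2 : ℕ) : ℝ)}.Finite := by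
    rw [ae_all_iff]
    intro k
    rw [ae_all_iff]
    intro n
    rw [ae_all_iff]
    intro q
    rw [ae_all_iff]
    intro r
    by_cases hq : 0 < (q : ℝ) ∧ 0 ≤ (r : ℝ) ∧ 2 / (3 * (q : ℝ)) < (2 + r) * α
    · obtain ⟨K, hK⟩ := count (1 / ((k : ℝ) + 1)) q (((2 + r) * α - 2 / (3 * (q : ℝ))) / 2) (hk1 k) hq.1
        (by linarith [hq.2.2])
      filter_upwards [Pool.Agent.T6.H23.TB.NN.three_members h hα (Exceptions (1 / ((k : ℝ) + 1)) q) K _ r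
        (1 / ((n : ℝ) + 1)) (hk1 n) hq.2.1 (by linarith [hq.2.2]) (fun t ht => ⟨ht.1, ht.2.1, ht.2.2.1⟩) hK] with ω hω
      intro _ _ _
      exact hω
    · exact Filter.Eventually.of_forall (fun ω h3 h4 h5 => absurd ⟨h3, h4, h5⟩ hq)
  -- (4)
  have p4 : ∀ᵐ ω ∂μ, ∀ m n : ℕ, α < 1 / 2 → ∃ n₀ : ℕ, ∀ N : ℕ, n₀ ≤ N →
      (N : ℝ) ^ (1 - 2 * α - 1 / ((m : ℝ) + 1)) ≤ ((Reps {m | ω ∈ R m} (1 - 1 / ((n : ℝ) + 1)) N).ncard : ℝ) := by
    rw [ae_all_iff]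
    intro m
    rw [ae_all_iff]
    intro n
    by_cases hα1 : α < 1 / 2
    · filter_upwards [Pool.Agent.T6.H23.TB.NN.basis h hα hα1 (1 / ((m : ℝ) + 1)) (1 - 1 / ((n : ℝ) + 1)) (hk1 m)
        (by linarith [hk1 n])] with ω hω
      intro _
      exact hω
    · exact Filter.Eventually.of_forall (fun ω h3 => absurd h3 hα1)
  -- (5)
  have p5 : ∀ᵐ ω ∂μ, ∀ m : ℕ, α < 1 →
      (∃ T₀ : ℝ, ∀ T : ℝ, T₀ ≤ T →
        T ^ (1 - α - 1 / ((m : ℝ) + 1)) ≤ ({m : ℕ | ω ∈ R m ∧ (m : ℝ) ≤ T}.ncard : ℝ)) ∧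
      ∃ K : ℝ, ∀ T : ℝ, 1 ≤ T →
        ({m : ℕ | ω ∈ R m ∧ (m : ℝ) ≤ T}.ncard : ℝ) ≤ K * T ^ (1 - α + 1 / ((m : ℝ) + 1)) := by
    rw [ae_all_iff]
    intro m
    by_cases hα2 : α < 1
    · filter_upwards [Pool.Agent.T6.H23.TB.NN.size_lower h hα hα2 (1 / ((m : ℝ) + 1)) (hk1 m),
        Pool.Agent.T6.H23.TB.NN.size_upper h hα2 (1 / ((m : ℝ) + 1)) (hk1 m)] with ω hω1 hω2
      intro _
      exact ⟨hω1, hω2⟩
    · exact Filter.Eventually.of_forall (fun ω h3 => absurd h3 hα2)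
  filter_upwards [p1, p2, p3, p4, p5] with ω w1 w2 w3 w4 w5
  have hCk : ∀ C : ℝ, 0 < C → ∃ k : ℕ, 1 / ((k : ℝ) + 1) ≤ C ∧ 1 / ((k : ℝ) + 1) ≤ 1 := by
    intro C hC
    obtain ⟨k, hk⟩ := exists_nat_one_div_lt hC
    refine ⟨k, hk.le, ?_⟩
    rw [div_le_iff₀ (by positivity)]
    have : (0 : ℝ) ≤ k := Nat.cast_nonneg _
    linarith
  refine ⟨fun C M hC hM hexp => ?_, fun C M hC hM hexp => ?_, fun C M κ η hC hM hκ hη hexp => ?_,
    fun hα1 δ κ hδ hκ => ?_, fun hα2 δ hδ => ?_⟩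
  · obtain ⟨k, hk, hk'⟩ := hCk C hC
    obtain ⟨q, hq0, hq1, hq2⟩ := exists_rat M α hM hexp
    refine (w1 k q hq0 hq2).subset ?_
    rintro t ⟨ht1, ht2⟩
    exact ⟨mono (hk1 k).le hk hk' hq0 hq1 ht1, ht2⟩
  · obtain ⟨k, hk, hk'⟩ := hCk C hC
    obtain ⟨q, hq0, hq1, hq2⟩ := exists_rat M (2 * α) hM hexp
    refine (w2 k q hq0 hq2).subset ?_
    rintro t ⟨ht1, ht2⟩
    exact ⟨mono (hk1 k).le hk hk' hq0 hq1 ht1, ht2⟩
  · obtain ⟨k, hk, hk'⟩ := hCk C hC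
    -- lower `κ` and `M` slightly
    obtain ⟨q, hq0, hq1, hq2⟩ := exists_rat M ((2 + κ) * α) hM hexp
    rcases eq_or_lt_of_le hκ with hκ0 | hκ0
    · obtain ⟨n, hn⟩ := exists_nat_one_div_lt hη
      refine (w3 k n q 0 hq0 (by norm_num) (by rw [← hκ0] at hq2; push_cast; linarith)).subset ?_
      rintro t ⟨ht1, ht2, ht3, ht4, ht5⟩
      refine ⟨mono (hk1 k).le hk hk' hq0 hq1 ht1, ht2, ht3, ht4, le_trans ?_ ht5⟩
      rw [← hκ0]
      push_cast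
      rw [Real.rpow_zero, Real.rpow_zero]
      linarith
    · obtain ⟨r, hr1, hr2⟩ := exists_rat_btwn (show max 0 (κ - ((2 + κ) * α - 2 / (3 * (q : ℝ))) / α) < κ from
        max_lt hκ0 (by
          have : 0 < ((2 + κ) * α - 2 / (3 * (q : ℝ))) / α := div_pos (by linarith) hα
          linarith))
      obtain ⟨n, hn⟩ := exists_nat_one_div_lt hη
      have hr0 : 0 ≤ (r : ℝ) := (le_max_left _ _).trans hr1.le
      have hr3 : κ - ((2 + κ) * α - 2 / (3 * (q : ℝ))) / α < r := lt_of_le_of_lt (le_max_right _ _) hr1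
      have hr4 : 2 / (3 * (q : ℝ)) < (2 + r) * α := by
        have h6 : (κ - ((2 + κ) * α - 2 / (3 * (q : ℝ))) / α) * α = 2 / (3 * (q : ℝ)) - 2 * α := by
          rw [sub_mul, div_mul_cancel₀ _ hα.ne']
          ring
        have h7 := mul_lt_mul_of_pos_right hr3 hα
        rw [h6] at h7
        linarith
      refine (w3 k n q r hq0 hr0 hr4).subset ?_
      rintro t ⟨ht1, ht2, ht3, ht4, ht5⟩
      have hH : 1 ≤ ((t.1 + t.2 : ℕ) : ℝ) := by exact_mod_cast (by have := ht1.1; omega : 1 ≤ t.1 + t.2)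
      refine ⟨mono (hk1 k).le hk hk' hq0 hq1 ht1, ht2, ht3, ht4, le_trans ?_ ht5⟩
      exact mul_le_mul hn.le (Real.rpow_le_rpow_of_exponent_le hH hr2.le)
        (Real.rpow_nonneg (show (0 : ℝ) ≤ ((t.1 + t.2 : ℕ) : ℝ) by linarith) _) hη.le
  · obtain ⟨m, hm⟩ := exists_nat_one_div_lt hδ
    obtain ⟨n, hn⟩ := exists_nat_one_div_lt (show 0 < 1 - κ by linarith)
    obtain ⟨n₀, hn₀⟩ := w4 m n hα1
    refine ⟨max n₀ 1, fun N hN => ?_⟩
    have hN1 : 1 ≤ (N : ℝ) := by exact_mod_cast (le_max_right _ _).trans hN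
    refine (Real.rpow_le_rpow_of_exponent_le hN1 (by linarith)).trans
      ((hn₀ N ((le_max_left _ _).trans hN)).trans ?_)
    have hsub : Reps {m | ω ∈ R m} (1 - 1 / ((n : ℝ) + 1)) N ⊆ Reps {m | ω ∈ R m} κ N := by
      rintro a ⟨a1, a2, a3, a4, a5⟩
      exact ⟨a1, a2, a3, a4, (Real.rpow_le_rpow_of_exponent_le hN1 (by linarith)).trans a5⟩
    have hfin : (Reps {m | ω ∈ R m} κ N).Finite :=
      (Finset.finite_toSet (Finset.range N)).subset (fun a ha => by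
        have := ha.1
        rw [Finset.mem_coe, Finset.mem_range]
        omega)
    exact_mod_cast Set.ncard_le_ncard hsub hfin
  · obtain ⟨m, hm⟩ := exists_nat_one_div_lt hδ
    obtain ⟨⟨T₀, h9⟩, K, h10⟩ := w5 m hα2
    refine ⟨⟨max T₀ 1, fun T hT => ?_⟩, max K 0, fun T hT => ?_⟩
    · have hT1 : 1 ≤ T := (le_max_right _ _).trans hT
      exact (Real.rpow_le_rpow_of_exponent_le hT1 (by linarith)).trans (h9 T ((le_max_left _ _).trans hT))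
    · refine (h10 T hT).trans ?_
      exact mul_le_mul (le_max_left _ _) (Real.rpow_le_rpow_of_exponent_le hT (by linarith))
        (Real.rpow_nonneg (by linarith) _) (le_max_right _ _)

end Pool.Agent.Results.MP_14cf73_nt.RandomBases
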