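import Pool.Agent.T6.H44.MEM.Nt3

/-!
# The inequality `c < H (abc) ^ (1 + ε)` for all admissible triples containing a typical number

`H (n) = γ (n) / (log γ (n)) ^ ω (n)`. For all but `O (X ^ (1 - ε / 4))` of the `m ≤ X` EVERY
admissible triple with a member `m` (or with a member `m ^ n`, `n` fixed) has
`H (abc) ≥ m ^ (2 - ε)`, whatever the size of the other members (if only `γ (abc) ≤ X ^ A`). The
exponent `2` is optimal. So for almost all `m` the inequality `c < H (abc) ^ (1 + ε)` holds for all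
admissible triples with a member `m` and `c ≤ m ^ 2`; it holds for all triples with `c = m ^ 2`; and
for almost all `c` it holds with the exponent `1 / 2 + ε`. Moreover `X ^ (1/2)`, up to `X ^ ε`, is the
number of all admissible triples with a given member and `γ (abc) ≤ X`.
-/

set_option autoImplicit false

namespace Pool.Agent.Results.MP_14cf73_nt.TriplesContaining

open Pool.Agent.T6.H44.MEM.Nt
open Pool.Agent.R479.HK (W)

/-- `γ(n)`, the product of the primes dividing `n` -/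
def radical (n : ℕ) : ℕ := ∏ p ∈ n.primeFactors, p

/-- `ω(n)`, the number of primes dividing `n` -/
def omega (n : ℕ) : ℕ := n.primeFactors.card

/-- `H(n) = γ(n) / (log γ(n)) ^ ω(n)` -/
noncomputable def H (n : ℕ) : ℝ := (radical n : ℝ) / Real.log (radical n : ℝ) ^ omega n

/-- admissible triples `(a, b, c)` of positive integers -/
def Admissible (t : ℕ × ℕ × ℕ) : Prop :=
  0 < t.1 ∧ 0 < t.2.1 ∧ t.1 + t.2.1 = t.2.2 ∧ Nat.gcd (Nat.gcd t.1 t.2.1) t.2.2 = 1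

/-- the product `abc` -/
def prod3 (t : ℕ × ℕ × ℕ) : ℕ := t.1 * t.2.1 * t.2.2

/-- `k` is one of the members `a`, `b`, `c` -/
def Member (k : ℕ) (t : ℕ × ℕ × ℕ) : Prop := k = t.1 ∨ k = t.2.1 ∨ k = t.2.2

/-- the `m ≤ X` for which some admissible triple with a member `m ^ n` and `γ(abc) ≤ X ^ A` has
`H(abc) < m ^ (2 - ε)` -/
def smallH (n : ℕ) (A ε X : ℝ) : Set ℕ :=
  {m | 1 ≤ m ∧ (m : ℝ) ≤ X ∧ ∃ t, Admissible t ∧ Member (m ^ n) t ∧
    (radical (prod3 t) : ℝ) ≤ X ^ A ∧ H (prod3 t) < (m : ℝ) ^ (2 - ε)}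

/-- the `m ≤ X` for which some admissible triple with a member `m ^ n` and `c ≤ m ^ κ` violates
`c < H(abc) ^ (κ / 2 + ε)` -/
def violating (n : ℕ) (κ ε X : ℝ) : Set ℕ :=
  {m | 1 ≤ m ∧ (m : ℝ) ≤ X ∧ ∃ t, Admissible t ∧ Member (m ^ n) t ∧
    (t.2.2 : ℝ) ≤ (m : ℝ) ^ κ ∧ H (prod3 t) ^ (κ / 2 + ε) ≤ (t.2.2 : ℝ)}

/-- the admissible triples with `γ(abc) ≤ X` one of whose members is composed of primes dividing
`m` -/
def withPrimes (m : ℕ) (X : ℝ) : Set (ℕ × ℕ × ℕ) :=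
  {t | Admissible t ∧ (radical (prod3 t) : ℝ) ≤ X ∧
    ∃ k, Member k t ∧ ∀ q : ℕ, q.Prime → q ∣ k → q ∣ m}

/-- the admissible triples with a member `m` and `γ(abc) ≤ X` -/
def containing (m : ℕ) (X : ℝ) : Set (ℕ × ℕ × ℕ) :=
  {t | Admissible t ∧ (radical (prod3 t) : ℝ) ≤ X ∧ Member m t}

theorem adm {t : ℕ × ℕ × ℕ} (h : Admissible t) :
    0 < t.1 ∧ 0 < t.2.1 ∧ t.2.2 = t.1 + t.2.1 ∧ Nat.Coprime t.1 t.2.1 := by
  obtain ⟨h1, h2, h3, h4⟩ := h
  refine ⟨h1, h2, h3.symm, ?_⟩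
  rw [← h3] at h4
  have h5 : Nat.gcd t.1 t.2.1 ∣ t.1 + t.2.1 :=
    dvd_add (Nat.gcd_dvd_left _ _) (Nat.gcd_dvd_right _ _)
  rwa [Nat.gcd_eq_left h5] at h4

theorem prod3_eq {t : ℕ × ℕ × ℕ} (h : Admissible t) :
    prod3 t = t.1 * t.2.1 * (t.1 + t.2.1) := by
  unfold prod3
  rw [(adm h).2.2.1]

theorem radical_eq (n : ℕ) : radical n = Pool.Agent.H785R2.ABC.rad n := rfl

theorem two_le {t : ℕ × ℕ × ℕ} (h : Admissible t) : 2 ≤ radical (prod3 t) := by
  obtain ⟨h1, h2, h3, -⟩ := adm h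
  have h4 : 1 < prod3 t := by
    rw [prod3_eq h]
    nlinarith [Nat.mul_pos h1 h2]
  obtain ⟨q, hq, hqd⟩ := Nat.exists_prime_and_dvd h4.ne'
  have hmem : q ∈ (prod3 t).primeFactors := Nat.mem_primeFactors.mpr ⟨hq, hqd, by omega⟩
  have h5 : q ∣ radical (prod3 t) := Finset.dvd_prod_of_mem _ hmem
  have h6 : 0 < radical (prod3 t) :=
    Finset.prod_pos fun r hr => (Nat.prime_of_mem_primeFactors hr).pos
  exact hq.two_le.trans (Nat.le_of_dvd h6 h5)

theorem log_pos' {t : ℕ × ℕ × ℕ} (h : Admissible t) : 0 < Real.log (radical (prod3 t) : ℝ) := by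
  apply Real.log_pos
  have h1 : (2 : ℝ) ≤ radical (prod3 t) := by exact_mod_cast two_le h
  linarith

theorem H_pos {t : ℕ × ℕ × ℕ} (h : Admissible t) : 0 < H (prod3 t) := by
  have h1 := log_pos' h
  have h2 : (2 : ℝ) ≤ radical (prod3 t) := by exact_mod_cast two_le h
  unfold H
  positivity

/-- the weights `W z` are smaller than `H` -/
theorem W_le_H {t : ℕ × ℕ × ℕ} (h : Admissible t) {z : ℝ}
    (hz : Real.log (radical (prod3 t) : ℝ) ≤ z) : W z (prod3 t) ≤ H (prod3 t) := by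
  have h1 := log_pos' h
  unfold W H
  exact div_le_div_of_nonneg_left (by positivity) (by positivity)
    (pow_le_pow_left₀ h1.le hz _)

theorem part1 (n : ℕ) (hn : 1 ≤ n) (A ε : ℝ) (hε : 0 < ε) (hε1 : ε ≤ 1) :
    ∃ C : ℝ, 0 < C ∧ ∀ X : ℝ, 1 ≤ X → (smallH n A ε X).Finite ∧
      ((smallH n A ε X).ncard : ℝ) ≤ C * X ^ (1 - ε / 4) := by
  obtain ⟨C, hC, hmain⟩ := few_exc n hn A (|A| + 1) ε hε hε1
  refine ⟨C, hC, fun X hX => ?_⟩
  have hX0 : 0 < X := by linarith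
  have hlX : 0 ≤ Real.log X := Real.log_nonneg hX
  have hfin : (smallH n A ε X).Finite := by
    refine (Set.finite_Icc 1 ⌊X⌋₊).subset fun m hm => ?_
    exact ⟨hm.1, Nat.le_floor hm.2.1⟩
  refine ⟨hfin, ?_⟩
  rw [Set.ncard_eq_toFinset_card _ hfin]
  have hA0 : 0 ≤ |A| := abs_nonneg A
  refine hmain X hX ((|A| + 1) * (1 + Real.log X)) (by positivity) le_rfl hfin.toFinset ?_
  intro m hm
  rw [Set.Finite.mem_toFinset] at hm
  obtain ⟨hm1, hmX, t, ht, hmem, hrad, hH⟩ := hm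
  obtain ⟨a1, a2, a3, a4⟩ := adm ht
  refine ⟨hm1, hmX, t.1, t.2.1, a1, a2, a4, ?_, ?_, ?_⟩
  · rcases hmem with h | h | h
    · exact ⟨0, h.symm⟩
    · exact ⟨1, h.symm⟩
    · exact ⟨2, by rw [h, a3]; rfl⟩
  · rw [← prod3_eq ht]
    exact hrad
  · rw [← prod3_eq ht]
    refine (W_le_H ht ?_).trans (hH.le.trans ?_)
    · have h1 : (0 : ℝ) < radical (prod3 t) := by
        have := two_le ht
        exact_mod_cast (by omega : 0 < radical (prod3 t))
      have h2 := Real.log_le_log h1 hrad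
      rw [Real.log_rpow hX0] at h2
      have h3 : A * Real.log X ≤ |A| * Real.log X :=
        mul_le_mul_of_nonneg_right (le_abs_self A) hlX
      nlinarith
    · exact Real.rpow_le_rpow (by positivity) hmX (by linarith)

theorem part2 (n : ℕ) (hn : 1 ≤ n) (κ ε : ℝ) (hκ : 0 < κ) (hε : 0 < ε) :
    ∃ C : ℝ, 0 < C ∧ ∀ X : ℝ, 1 ≤ X → (violating n κ ε X).Finite ∧
      ((violating n κ ε X).ncard : ℝ) ≤ C * X ^ (1 - ε / (4 * (κ + ε))) := by
  obtain ⟨ε₁, hε₁⟩ : ∃ ε₁ : ℝ, ε₁ = ε / (κ + ε) := ⟨_, rfl⟩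
  have hε₁0 : 0 < ε₁ := by rw [hε₁]; positivity
  have hε₁1 : ε₁ ≤ 1 := by
    rw [hε₁, div_le_one (by positivity)]
    linarith
  obtain ⟨C, hC, hmain⟩ := part1 n hn (3 * κ) ε₁ hε₁0 hε₁1
  refine ⟨C, hC, fun X hX => ?_⟩
  have hX0 : 0 < X := by linarith
  obtain ⟨hfin, hcard⟩ := hmain X hX
  have hsub : violating n κ ε X ⊆ smallH n (3 * κ) ε₁ X := by
    rintro m ⟨hm1, hmX, t, ht, hmem, hc, hH⟩
    refine ⟨hm1, hmX, t, ht, hmem, ?_, ?_⟩
    · obtain ⟨a1, a2, a3, a4⟩ := adm ht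
      have h1 : radical (prod3 t) ≤ t.2.2 ^ 3 := by
        have h2 : 0 < prod3 t := by
          unfold prod3
          have : 0 < t.2.2 := by omega
          positivity
        refine (Nat.le_of_dvd h2 (Nat.prod_primeFactors_dvd _)).trans ?_
        unfold prod3
        calc t.1 * t.2.1 * t.2.2 ≤ t.2.2 * t.2.2 * t.2.2 := by gcongr <;> omega
          _ = t.2.2 ^ 3 := by ring
      have h2 : (radical (prod3 t) : ℝ) ≤ (t.2.2 : ℝ) ^ 3 := by exact_mod_cast h1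
      calc (radical (prod3 t) : ℝ) ≤ (t.2.2 : ℝ) ^ 3 := h2
        _ ≤ ((m : ℝ) ^ κ) ^ 3 := by gcongr
        _ ≤ (X ^ κ) ^ 3 := by gcongr
        _ = X ^ (3 * κ) := by
          rw [← Real.rpow_natCast, ← Real.rpow_mul hX0.le]
          congr 1
          push_cast
          ring
    · have hHp := H_pos ht
      have hm2 : (2 : ℝ) ≤ (m : ℝ) := by
        have : 2 ≤ m := by
          by_contra hcon
          have hm : m = 1 := by omega
          rw [hm, Nat.cast_one, Real.one_rpow] at hc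
          have : t.2.2 ≤ 1 := by exact_mod_cast hc
          obtain ⟨a1, a2, a3, a4⟩ := adm ht
          omega
        exact_mod_cast this
      have hm0 : (0 : ℝ) < m := by linarith
      have he : 0 < κ / 2 + ε := by positivity
      have h1 : H (prod3 t) ≤ ((m : ℝ) ^ κ) ^ (κ / 2 + ε)⁻¹ := by
        have h2 := Real.rpow_le_rpow (by positivity) (hH.trans hc) (inv_nonneg.2 he.le)
        rwa [← Real.rpow_mul hHp.le, mul_inv_cancel₀ he.ne', Real.rpow_one] at h2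
      refine h1.trans_lt ?_
      rw [← Real.rpow_mul hm0.le]
      refine Real.rpow_lt_rpow_of_exponent_lt (by linarith) ?_
      rw [hε₁, ← div_eq_mul_inv, div_lt_iff₀ he]
      have h3 : (2 - ε / (κ + ε)) = (2 * κ + ε) / (κ + ε) := by
        field_simp
        ring
      rw [h3, div_mul_eq_mul_div, lt_div_iff₀ (by positivity)]
      nlinarith [mul_pos hκ hε]
  refine ⟨hfin.subset hsub, ?_⟩
  have h1 : ((violating n κ ε X).ncard : ℝ) ≤ ((smallH n (3 * κ) ε₁ X).ncard : ℝ) := by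
    exact_mod_cast Set.ncard_le_ncard hsub hfin
  refine h1.trans (hcard.trans (le_of_eq ?_))
  congr 2
  rw [hε₁]
  field_simp

/-- the triple `(1, m - 1, m)` -/
theorem part3 (m : ℕ) (hm : 2 ≤ m) : Admissible (1, m - 1, m) ∧ Member m (1, m - 1, m) ∧
    H (prod3 (1, m - 1, m)) ≤ (m : ℝ) ^ (2 : ℝ) := by
  have hadm : Admissible (1, m - 1, m) :=
    ⟨one_pos, by show 0 < m - 1; omega, by show 1 + (m - 1) = m; omega, by simp⟩
  refine ⟨hadm, Or.inr (Or.inr rfl), ?_⟩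
  have hle : radical (prod3 (1, m - 1, m)) ≤ m ^ 2 := by
    have h2 : 0 < prod3 (1, m - 1, m) := by
      unfold prod3
      have h3 : 0 < m - 1 := by omega
      have h4 : 0 < m := by omega
      show 0 < 1 * (m - 1) * m
      positivity
    refine (Nat.le_of_dvd h2 (Nat.prod_primeFactors_dvd _)).trans ?_
    show 1 * (m - 1) * m ≤ m ^ 2
    rw [one_mul, sq]
    exact Nat.mul_le_mul_right m (by omega)
  have hle' : (radical (prod3 (1, m - 1, m)) : ℝ) ≤ (m : ℝ) ^ (2 : ℝ) := by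
    rw [Real.rpow_two]
    exact_mod_cast hle
  rcases Nat.lt_or_ge m 3 with h | h
  · have hm2 : m = 2 := by omega
    subst hm2
    have h1 : prod3 (1, 2 - 1, 2) = 2 := rfl
    rw [h1]
    have h2 : H 2 = 2 / Real.log 2 := by
      unfold H radical omega
      rw [Nat.prime_two.primeFactors]
      simp
    rw [h2, div_le_iff₀ (Real.log_pos one_lt_two)]
    have h3 := Real.log_two_gt_d9
    have h4 : ((2 : ℕ) : ℝ) ^ (2 : ℝ) = 4 := by
      rw [Real.rpow_two]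
      norm_num
    rw [h4]
    linarith
  · have h1 : 3 ≤ radical (prod3 (1, m - 1, m)) := by
      obtain ⟨p, hp, hpm⟩ := Nat.exists_prime_and_dvd (show m ≠ 1 by omega)
      obtain ⟨q, hq, hqm⟩ := Nat.exists_prime_and_dvd (show m - 1 ≠ 1 by omega)
      have hne : p ≠ q := by
        rintro rfl
        have h5 : p ∣ m - (m - 1) := Nat.dvd_sub hpm hqm
        have h6 : m - (m - 1) = 1 := by omega
        rw [h6] at h5
        exact hp.one_lt.ne' (Nat.dvd_one.1 h5)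
      have hprod : prod3 (1, m - 1, m) = (m - 1) * m := by
        show 1 * (m - 1) * m = (m - 1) * m
        rw [one_mul]
      have hne0 : (m - 1) * m ≠ 0 := Nat.mul_ne_zero (by omega) (by omega)
      have hpd : p ∣ radical (prod3 (1, m - 1, m)) := by
        rw [hprod]
        exact Finset.dvd_prod_of_mem _ (Nat.mem_primeFactors.mpr ⟨hp, hpm.mul_left _, hne0⟩)
      have hqd : q ∣ radical (prod3 (1, m - 1, m)) := by
        rw [hprod]
        exact Finset.dvd_prod_of_mem _ (Nat.mem_primeFactors.mpr ⟨hq, hqm.mul_right _, hne0⟩)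
      have h7 : p * q ∣ radical (prod3 (1, m - 1, m)) :=
        ((Nat.coprime_primes hp hq).2 hne).mul_dvd_of_dvd_of_dvd hpd hqd
      have h8 : 0 < radical (prod3 (1, m - 1, m)) := by
        have := two_le hadm
        omega
      have h9 := Nat.le_of_dvd h8 h7
      have h10 := hp.two_le
      have h11 := hq.two_le
      nlinarith
    have h4 : 1 ≤ Real.log (radical (prod3 (1, m - 1, m)) : ℝ) := by
      have h5 : Real.exp 1 ≤ (radical (prod3 (1, m - 1, m)) : ℝ) := by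
        have h6 : (3 : ℝ) ≤ radical (prod3 (1, m - 1, m)) := by exact_mod_cast h1
        have := Real.exp_one_lt_d9
        linarith
      have h7 := Real.log_le_log (Real.exp_pos 1) h5
      rwa [Real.log_exp] at h7
    refine le_trans ?_ hle'
    unfold H
    exact div_le_self (by positivity) (one_le_pow₀ h4)

/-- a triple is determined by its first two members -/
theorem inj_on : Set.InjOn (fun t : ℕ × ℕ × ℕ => (t.1, t.2.1)) {t | Admissible t} := by
  rintro ⟨a, b, c⟩ ht ⟨a', b', c'⟩ ht' h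
  obtain ⟨-, -, h1, -⟩ := adm ht
  obtain ⟨-, -, h2, -⟩ := adm ht'
  simp only [Prod.mk.injEq] at h h1 h2 ⊢
  obtain ⟨rfl, rfl⟩ := h
  exact ⟨rfl, rfl, by rw [h1, h2]⟩

theorem part4 (m : ℕ) (hm : m ≠ 0) (ε : ℝ) (hε : 0 < ε) : ∃ C : ℝ, 0 < C ∧ ∀ X : ℝ, 1 ≤ X →
    (withPrimes m X).Finite ∧ ((withPrimes m X).ncard : ℝ) ≤ C * X ^ (1 / 2 + ε) := by
  classical
  obtain ⟨C, hC, hmain⟩ := given_primes m hm ε hε
  refine ⟨C, hC, fun X hX => ?_⟩
  have hX0 : 0 < X := by linarith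
  -- every finite subset is small
  have hsmall : ∀ F : Finset (ℕ × ℕ × ℕ), (F : Set (ℕ × ℕ × ℕ)) ⊆ withPrimes m X →
      (F.card : ℝ) ≤ C * X ^ (1 / 2 + ε) := by
    intro F hF
    have h1 : F.card = (F.image fun t : ℕ × ℕ × ℕ => (t.1, t.2.1)).card := by
      rw [Finset.card_image_of_injOn]
      exact inj_on.mono fun t ht => (hF ht).1
    rw [h1]
    refine hmain X hX _ fun p hp => ?_
    rw [Finset.mem_image] at hp
    obtain ⟨t, ht, rfl⟩ := hp
    obtain ⟨h2, h3, k, hk, h4⟩ := hF ht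
    obtain ⟨a1, a2, a3, a4⟩ := adm h2
    refine ⟨a1, a2, a4, ?_, ?_⟩
    · show (Pool.Agent.H785R2.ABC.rad (t.1 * t.2.1 * (t.1 + t.2.1)) : ℝ) ≤ X
      rw [← prod3_eq h2]
      exact h3
    · rcases hk with rfl | rfl | rfl
      · exact ⟨0, h4⟩
      · exact ⟨1, h4⟩
      · refine ⟨2, ?_⟩
        rw [a3] at h4
        exact h4
  have hfin : (withPrimes m X).Finite := by
    by_contra hinf
    have hinf : (withPrimes m X).Infinite := hinf
    obtain ⟨F, hF, hcard⟩ := hinf.exists_subset_card_eq (⌊C * X ^ (1 / 2 + ε)⌋₊ + 1)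
    have h1 := hsmall F hF
    rw [hcard] at h1
    push_cast at h1
    have h2 := Nat.lt_floor_add_one (C * X ^ (1 / 2 + ε))
    linarith
  refine ⟨hfin, ?_⟩
  rw [Set.ncard_eq_toFinset_card _ hfin]
  exact hsmall _ (by rw [Set.Finite.coe_toFinset])

theorem part5 (m : ℕ) (hm : 0 < m) : ∃ c₁ X₀ : ℝ, 0 < c₁ ∧ ∀ X : ℝ, X₀ ≤ X →
    (containing m X).Finite ∧ c₁ * X ^ (1 / 2 : ℝ) ≤ ((containing m X).ncard : ℝ) := by
  classical
  obtain ⟨c₁, X₀, hc₁, h⟩ := many m hm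
  obtain ⟨C, hC, h4⟩ := part4 m hm.ne' 1 one_pos
  refine ⟨c₁, max X₀ 1, hc₁, fun X hX => ?_⟩
  obtain ⟨hfin', -⟩ := h4 X ((le_max_right _ _).trans hX)
  have hfin : (containing m X).Finite := by
    refine hfin'.subset fun t ht => ?_
    exact ⟨ht.1, ht.2.1, m, ht.2.2, fun q _ hq => hq⟩
  refine ⟨hfin, ?_⟩
  obtain ⟨F, hF, hcard⟩ := h X ((le_max_left _ _).trans hX)
  refine hcard.trans ?_
  have h1 : F.card = (F.image fun p : ℕ × ℕ => (p.1, p.2, p.1 + p.2)).card := by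
    rw [Finset.card_image_of_injective]
    intro p q hpq
    simp only [Prod.mk.injEq] at hpq
    exact Prod.ext hpq.1 hpq.2.1
  rw [h1, ← Set.ncard_coe_finset]
  have hsub : ((F.image fun p : ℕ × ℕ => (p.1, p.2, p.1 + p.2) : Finset (ℕ × ℕ × ℕ)) :
      Set (ℕ × ℕ × ℕ)) ⊆ containing m X := by
    intro t ht
    rw [Finset.coe_image] at ht
    obtain ⟨p, hp, rfl⟩ := ht
    obtain ⟨a1, a2, a3, a4⟩ := hF p hp
    refine ⟨⟨?_, a2, rfl, ?_⟩, a4, Or.inl a1.symm⟩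
    · show 0 < p.1
      rw [a1]
      exact hm
    · show Nat.gcd (Nat.gcd p.1 p.2) (p.1 + p.2) = 1
      rw [Nat.Coprime.gcd_eq_one a3, Nat.gcd_one_left]
  exact_mod_cast Set.ncard_le_ncard hsub hfin

theorem result :
    (∀ n : ℕ, 1 ≤ n → ∀ A ε : ℝ, 0 < ε → ε ≤ 1 → ∃ C : ℝ, 0 < C ∧ ∀ X : ℝ, 1 ≤ X →
      (smallH n A ε X).Finite ∧ ((smallH n A ε X).ncard : ℝ) ≤ C * X ^ (1 - ε / 4)) ∧
    (∀ n : ℕ, 1 ≤ n → ∀ κ ε : ℝ, 0 < κ → 0 < ε → ∃ C : ℝ, 0 < C ∧ ∀ X : ℝ, 1 ≤ X →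
      (violating n κ ε X).Finite ∧
      ((violating n κ ε X).ncard : ℝ) ≤ C * X ^ (1 - ε / (4 * (κ + ε)))) ∧
    (∀ m : ℕ, 2 ≤ m → Admissible (1, m - 1, m) ∧ Member m (1, m - 1, m) ∧
      H (prod3 (1, m - 1, m)) ≤ (m : ℝ) ^ (2 : ℝ)) ∧
    (∀ m : ℕ, m ≠ 0 → ∀ ε : ℝ, 0 < ε → ∃ C : ℝ, 0 < C ∧ ∀ X : ℝ, 1 ≤ X →
      (withPrimes m X).Finite ∧ ((withPrimes m X).ncard : ℝ) ≤ C * X ^ (1 / 2 + ε)) ∧
    (∀ m : ℕ, 0 < m → ∃ c₁ X₀ : ℝ, 0 < c₁ ∧ ∀ X : ℝ, X₀ ≤ X →
      (containing m X).Finite ∧ c₁ * X ^ (1 / 2 : ℝ) ≤ ((containing m X).ncard : ℝ)) :=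
  ⟨part1, part2, part3, part4, part5⟩

end Pool.Agent.Results.MP_14cf73_nt.TriplesContaining
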