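import Pool.Agent.Results.MP_14cf73_nt.ExceptionsByHeight
import Pool.Agent.R559.NP.Near

/-!
# The inequality `c < C H (abc) ^ (1 + ε)` for the triples near a given point

`H (n) = γ (n) / (log γ (n)) ^ ω (n)`. For every real number `ξ` outside a set of Hausdorff dimension at most `1 / 3` the
inequality `c < C H (abc) ^ (1 + ε)` of the problem holds, for all `ε > 0`, with `C = C (ε, κ, ξ)`, for ALL admissible
triples with `|a / c - ξ| ≤ κ / c ^ 2`, in particular for the triples `(p, q - p, q)` given by the convergents `p / q` of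
`ξ`. For almost every `ξ` it holds for all admissible triples with `|a / c - ξ| ≤ κ / c ^ τ`, for all `τ > 2 / 3`.
The same holds for the approximations in the fields of `l`-adic numbers. More generally, let `φ` be any map from the
admissible triples to a metric space. The inequality holds for all the triples with `dist (φ (a, b, c)) ξ ≤ κ c ^ (-τ)` if
`ξ` is not in a set of Hausdorff dimension at most `2 / (3 τ)`.
-/

set_option autoImplicit false

open Filter Topology MeasureTheory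

namespace Pool.Agent.Results.MP_14cf73_nt.TriplesNearAPoint

open Pool.Agent.Results.MP_14cf73_nt.ExceptionsByHeight (H prod3 exceptions)

/-- the admissible triples `(a, b, c)`, `c = a + b`, written `(a, b)` -/
def Admissible (p : ℕ × ℕ) : Prop := 0 < p.1 ∧ 0 < p.2 ∧ Nat.Coprime p.1 p.2

/-- the largest member `c = a + b` -/
def top (p : ℕ × ℕ) : ℕ := p.1 + p.2

/-- the statement of the problem for the admissible triples of a set `S`: for every `ε > 0` there is `C` such that all of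
them satisfy `c < C H(abc) ^ (1 + ε)` -/
def Holds (S : Set (ℕ × ℕ)) : Prop :=
  ∀ ε : ℝ, 0 < ε → ∃ C : ℝ, ∀ p ∈ S, Admissible p → (top p : ℝ) < C * H (p.1 * p.2 * (p.1 + p.2)) ^ (1 + ε)

lemma H_pos {p : ℕ × ℕ} (hp : Admissible p) : 0 < H (p.1 * p.2 * (p.1 + p.2)) := by
  have h2 := ExceptionsByHeight.radical_two_le hp.1 hp.2.1
  have h2' : (2 : ℝ) ≤ ExceptionsByHeight.radical (prod3 (p.1, p.2)) := by exact_mod_cast h2
  have h3 : 0 < Real.log (ExceptionsByHeight.radical (prod3 (p.1, p.2)) : ℝ) := Real.log_pos (by linarith)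
  have h4 : 0 < H (prod3 (p.1, p.2)) := by
    unfold H
    positivity
  exact h4

lemma top_pos {p : ℕ × ℕ} (hp : Admissible p) : 1 < top p := by
  have h1 := hp.1
  have h2 := hp.2.1
  unfold top
  omega

/-- the height used for the count -/
noncomputable def ht (p : ℕ × ℕ) : ℝ := max (top p : ℝ) 1

lemma one_le_ht (p : ℕ × ℕ) : 1 ≤ ht p := le_max_right _ _

/-- the exceptions with the exponent `M` -/
def Bad (M : ℝ) (p : ℕ × ℕ) : Prop := Admissible p ∧ H (p.1 * p.2 * (p.1 + p.2)) ^ M ≤ (top p : ℝ)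

lemma count {M : ℝ} (hM : 0 < M) (ε : ℝ) (hε : 0 < ε) : ∃ C : ℝ, ∀ B : ℝ, 1 ≤ B →
    {t | Bad M t ∧ ht t ≤ B}.Finite ∧ (({t | Bad M t ∧ ht t ≤ B}.ncard : ℕ) : ℝ) ≤ C * B ^ (2 / (3 * M) + ε) := by
  obtain ⟨K, hK, h⟩ := ExceptionsByHeight.result 1 M ε one_pos hM hε
  refine ⟨K, fun B hB => ?_⟩
  obtain ⟨h1, h2⟩ := h B hB
  have hsub : {t | Bad M t ∧ ht t ≤ B} ⊆ exceptions 1 M B := by
    rintro p ⟨⟨⟨ha, hb, hab⟩, h3⟩, h4⟩
    refine ⟨ha, hb, hab, (le_max_left _ _).trans h4, ?_⟩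
    rw [one_mul]
    exact h3
  exact ⟨h1.subset hsub, le_trans (by exact_mod_cast Set.ncard_le_ncard hsub h1) h2⟩

/-- finitely many exceptions for a sequence of exponents tending to one -/
lemma holds_of_finite {S : Set (ℕ × ℕ)} (h : ∀ j : ℕ, {p ∈ S | Bad (1 + 1 / ((j : ℝ) + 1)) p}.Finite) : Holds S := by
  classical
  intro ε hε
  obtain ⟨j, hj⟩ := exists_nat_one_div_lt hε
  set M : ℝ := 1 + 1 / ((j : ℝ) + 1) with hM
  have hfin := h j
  have hterm : ∀ p ∈ hfin.toFinset, 0 ≤ (top p : ℝ) / H (p.1 * p.2 * (p.1 + p.2)) ^ (1 + ε) := by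
    intro p hp
    rw [Set.Finite.mem_toFinset] at hp
    have := H_pos hp.2.1
    positivity
  refine ⟨1 + ∑ p ∈ hfin.toFinset, (top p : ℝ) / H (p.1 * p.2 * (p.1 + p.2)) ^ (1 + ε), fun p hp hadm => ?_⟩
  have hsum : 0 ≤ ∑ p ∈ hfin.toFinset, (top p : ℝ) / H (p.1 * p.2 * (p.1 + p.2)) ^ (1 + ε) :=
    Finset.sum_nonneg hterm
  have hH := H_pos hadm
  have hHe : 0 < H (p.1 * p.2 * (p.1 + p.2)) ^ (1 + ε) := Real.rpow_pos_of_pos hH _
  have ht0 : (1 : ℝ) < top p := by exact_mod_cast top_pos hadm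
  by_cases hb : Bad M p
  · have hmem : p ∈ hfin.toFinset := by
      rw [Set.Finite.mem_toFinset]
      exact ⟨hp, hb⟩
    have h1 := Finset.single_le_sum hterm hmem
    have h2 : (top p : ℝ) = (top p : ℝ) / H (p.1 * p.2 * (p.1 + p.2)) ^ (1 + ε) *
        H (p.1 * p.2 * (p.1 + p.2)) ^ (1 + ε) := by
      rw [div_mul_cancel₀ _ hHe.ne']
    calc (top p : ℝ) = (top p : ℝ) / H (p.1 * p.2 * (p.1 + p.2)) ^ (1 + ε) *
        H (p.1 * p.2 * (p.1 + p.2)) ^ (1 + ε) := h2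
      _ < _ := by
        refine mul_lt_mul_of_pos_right ?_ hHe
        linarith
  · have h1 : (top p : ℝ) < H (p.1 * p.2 * (p.1 + p.2)) ^ M := by
      by_contra hcon
      exact hb ⟨hadm, not_lt.1 hcon⟩
    have hM0 : 0 < M := by positivity
    have h2 : 1 < H (p.1 * p.2 * (p.1 + p.2)) := by
      by_contra hcon
      have h3 := Real.rpow_le_one hH.le (not_lt.1 hcon) hM0.le
      linarith
    calc (top p : ℝ) < H (p.1 * p.2 * (p.1 + p.2)) ^ M := h1
      _ ≤ H (p.1 * p.2 * (p.1 + p.2)) ^ (1 + ε) := Real.rpow_le_rpow_of_exponent_le h2.le (by linarith)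
      _ = 1 * H (p.1 * p.2 * (p.1 + p.2)) ^ (1 + ε) := (one_mul _).symm
      _ ≤ _ := by
        refine mul_le_mul_of_nonneg_right ?_ hHe.le
        linarith

/-- **Theorem.** The statement of the problem (for every `ε > 0` there is `C` such that `c < C H(abc) ^ (1 + ε)`) holds

1. for all admissible triples with `|a / c - ξ| ≤ κ / c ^ 2`, for all `κ`, if `ξ` is a real number outside a set of
   Hausdorff dimension at most `1 / 3`;
2. for all admissible triples with `‖a / c - ξ‖ ≤ κ / c ^ 2` in the field of `l`-adic numbers, for all primes `l` and all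
   `κ`, if `ξ` is an `l`-adic number outside a set of Hausdorff dimension at most `1 / 3`;
3. for all admissible triples with `|a / c - ξ| ≤ κ c ^ (-τ)`, for all `τ > 2 / 3` and all `κ`, for almost every real
   number `ξ`;
4. for all admissible triples with `dist (φ (a, b, c)) ξ ≤ κ c ^ (-τ)`, for all `κ`, where `τ > 0` and `φ` is any map to a
   metric space `X`, if `ξ` is a point of `X` outside a set of Hausdorff dimension at most `2 / (3 τ)`;
5. for all these triples, for all `τ > 2 / (3 s)` and all `κ`, for almost every `ξ` with respect to any measure on `X` for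
   which the balls of radius `r` have measure at most `C₀ r ^ s`. -/
theorem result :
    (∃ E : Set ℝ, dimH E ≤ ENNReal.ofReal (1 / 3) ∧ ∀ ξ : ℝ, ξ ∉ E → ∀ κ : ℝ,
      Holds {p | |(p.1 : ℝ) / (top p : ℝ) - ξ| ≤ κ / (top p : ℝ) ^ 2}) ∧
    (∀ (l : ℕ) [Fact l.Prime], ∃ E : Set ℚ_[l], dimH E ≤ ENNReal.ofReal (1 / 3) ∧ ∀ ξ : ℚ_[l], ξ ∉ E → ∀ κ : ℝ,
      Holds {p | ‖(p.1 : ℚ_[l]) / (top p : ℚ_[l]) - ξ‖ ≤ κ / (top p : ℝ) ^ 2}) ∧
    (∀ᵐ ξ : ℝ, ∀ τ : ℝ, 2 / 3 < τ → ∀ κ : ℝ,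
      Holds {p | |(p.1 : ℝ) / (top p : ℝ) - ξ| ≤ κ * (top p : ℝ) ^ (-τ)}) ∧
    (∀ (X : Type) [MetricSpace X] (φ : ℕ × ℕ → X) (τ : ℝ), 0 < τ →
      ∃ E : Set X, dimH E ≤ ENNReal.ofReal (2 / (3 * τ)) ∧ ∀ ξ : X, ξ ∉ E → ∀ κ : ℝ,
        Holds {p | dist (φ p) ξ ≤ κ * (top p : ℝ) ^ (-τ)}) ∧
    (∀ (X : Type) [MetricSpace X] [MeasurableSpace X] (μ : Measure X) (C₀ s : ℝ), 0 < s →
      (∀ (x : X) (r : ℝ), 0 < r → μ (Metric.closedBall x r) ≤ ENNReal.ofReal (C₀ * r ^ s)) →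
      ∀ φ : ℕ × ℕ → X, ∀ᵐ ξ ∂μ, ∀ τ : ℝ, 2 / (3 * s) < τ → ∀ κ : ℝ,
        Holds {p | dist (φ p) ξ ≤ κ * (top p : ℝ) ^ (-τ)}) := by
  have hM : ∀ j : ℕ, 1 < 1 + 1 / ((j : ℝ) + 1) := fun j => by
    have : 0 < 1 / ((j : ℝ) + 1) := by positivity
    linarith
  have conv : ∀ {p : ℕ × ℕ} {τ κ x : ℝ} {j : ℕ}, Bad (1 + 1 / ((j : ℝ) + 1)) p →
      x ≤ κ * (top p : ℝ) ^ (-τ) → x ≤ κ * ht p ^ (-τ) := by
    intro p τ κ x j hb hx
    have h1 : ht p = top p := by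
      unfold ht
      refine max_eq_left ?_
      exact_mod_cast (top_pos hb.1).le
    rwa [h1]
  have part3 : ∀ (X : Type) [MetricSpace X] (φ : ℕ × ℕ → X) (τ : ℝ), 0 < τ →
      ∃ E : Set X, dimH E ≤ ENNReal.ofReal (2 / (3 * τ)) ∧ ∀ ξ : X, ξ ∉ E → ∀ κ : ℝ,
        Holds {p | dist (φ p) ξ ≤ κ * (top p : ℝ) ^ (-τ)} := by
    intro X _ φ τ hτ
    have h : ∀ j : ℕ, ∃ E : Set X, dimH E ≤ ENNReal.ofReal (2 / (3 * (1 + 1 / ((j : ℝ) + 1))) / τ) ∧
        ∀ ξ : X, ξ ∉ E → ∀ κ : ℝ,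
          {t | dist (φ t) ξ ≤ κ * ht t ^ (-τ) ∧ Bad (1 + 1 / ((j : ℝ) + 1)) t}.Finite := fun j =>
      Pool.Agent.R559.NP.near_dim one_le_ht (by positivity) hτ
        (fun ε hε => count (by positivity) ε hε) φ
    choose E hE1 hE2 using h
    refine ⟨⋃ j, E j, ?_, fun ξ hξ κ => holds_of_finite fun j => ?_⟩
    · rw [dimH_iUnion]
      refine iSup_le fun j => (hE1 j).trans (ENNReal.ofReal_le_ofReal ?_)
      rw [div_div]
      have := hM j
      gcongr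
      nlinarith
    · rw [Set.mem_iUnion] at hξ
      push Not at hξ
      refine (hE2 j ξ (hξ j) κ).subset ?_
      rintro p ⟨h1, h2⟩
      exact ⟨conv h2 h1, h2⟩
  have part4 : ∀ (X : Type) [MetricSpace X] [MeasurableSpace X] (μ : Measure X) (C₀ s : ℝ), 0 < s →
      (∀ (x : X) (r : ℝ), 0 < r → μ (Metric.closedBall x r) ≤ ENNReal.ofReal (C₀ * r ^ s)) →
      ∀ φ : ℕ × ℕ → X, ∀ᵐ ξ ∂μ, ∀ τ : ℝ, 2 / (3 * s) < τ → ∀ κ : ℝ,
        Holds {p | dist (φ p) ξ ≤ κ * (top p : ℝ) ^ (-τ)} := by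
    intro X _ _ μ C₀ s hs hμ φ
    have h : ∀ j k : ℕ, ∀ᵐ ξ ∂μ, ∀ κ : ℝ,
        {t | dist (φ t) ξ ≤ κ * ht t ^ (-(2 / (3 * s) + 1 / ((k : ℝ) + 1))) ∧
          Bad (1 + 1 / ((j : ℝ) + 1)) t}.Finite := fun j k => by
      refine Pool.Agent.R559.NP.near_ae μ hμ one_le_ht (s := 2 / (3 * (1 + 1 / ((j : ℝ) + 1)))) (by positivity) ?_
        (fun ε hε => count (by positivity) ε hε) φ
      have h1 := hM j
      have h2 : 2 / (3 * (1 + 1 / ((j : ℝ) + 1))) < 2 / 3 := by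
        rw [div_lt_div_iff₀ (by positivity) (by norm_num)]
        nlinarith
      have h3 : 0 < 1 / ((k : ℝ) + 1) := by positivity
      have h4 : (2 / (3 * s) + 1 / ((k : ℝ) + 1)) * s = 2 / 3 + 1 / ((k : ℝ) + 1) * s := by
        field_simp
      rw [h4]
      have : 0 < 1 / ((k : ℝ) + 1) * s := by positivity
      linarith
    filter_upwards [ae_all_iff.2 fun j => ae_all_iff.2 (h j)] with ξ hξ τ hτ κ
    obtain ⟨k, hk⟩ := exists_nat_one_div_lt (sub_pos.2 hτ)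
    refine holds_of_finite fun j => (hξ j k |κ|).subset ?_
    rintro p ⟨h1, h2⟩
    refine ⟨?_, h2⟩
    have h3 : dist (φ p) ξ ≤ κ * ht p ^ (-τ) := conv h2 h1
    have h4 := one_le_ht p
    calc dist (φ p) ξ ≤ κ * ht p ^ (-τ) := h3
      _ ≤ |κ| * ht p ^ (-τ) := mul_le_mul_of_nonneg_right (le_abs_self κ) (by positivity)
      _ ≤ |κ| * ht p ^ (-(2 / (3 * s) + 1 / ((k : ℝ) + 1))) := by
        refine mul_le_mul_of_nonneg_left ?_ (abs_nonneg κ)
        exact Real.rpow_le_rpow_of_exponent_le h4 (by linarith)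
  have e2 : ∀ p : ℕ × ℕ, (top p : ℝ) ^ (-(2 : ℝ)) = ((top p : ℝ) ^ 2)⁻¹ := by
    intro p
    rw [Real.rpow_neg (Nat.cast_nonneg _)]
    norm_num
  refine ⟨?_, ?_, ?_, part3, part4⟩
  · obtain ⟨E, h1, h2⟩ := part3 ℝ (fun p => (p.1 : ℝ) / (top p : ℝ)) 2 two_pos
    refine ⟨E, h1.trans (ENNReal.ofReal_le_ofReal (by norm_num)), fun ξ hξ κ => ?_⟩
    have h3 := h2 ξ hξ κ
    have e : {p : ℕ × ℕ | |(p.1 : ℝ) / (top p : ℝ) - ξ| ≤ κ / (top p : ℝ) ^ 2} =
        {p : ℕ × ℕ | dist ((p.1 : ℝ) / (top p : ℝ)) ξ ≤ κ * (top p : ℝ) ^ (-(2 : ℝ))} := by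
      ext p
      simp only [Set.mem_ofPred_eq, Real.dist_eq, e2, div_eq_mul_inv]
    rw [e]
    exact h3
  · intro l _
    obtain ⟨E, h1, h2⟩ := part3 ℚ_[l] (fun p => (p.1 : ℚ_[l]) / (top p : ℚ_[l])) 2 two_pos
    refine ⟨E, h1.trans (ENNReal.ofReal_le_ofReal (by norm_num)), fun ξ hξ κ => ?_⟩
    have h3 := h2 ξ hξ κ
    have e : {p : ℕ × ℕ | ‖(p.1 : ℚ_[l]) / (top p : ℚ_[l]) - ξ‖ ≤ κ / (top p : ℝ) ^ 2} =
        {p : ℕ × ℕ | dist ((p.1 : ℚ_[l]) / (top p : ℚ_[l])) ξ ≤ κ * (top p : ℝ) ^ (-(2 : ℝ))} := by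
      ext p
      simp only [Set.mem_ofPred_eq, dist_eq_norm, e2, div_eq_mul_inv]
    rw [e]
    exact h3
  · have h1 := part4 ℝ volume 2 1 one_pos
      (fun x r hr => by
        rw [Real.volume_closedBall, Real.rpow_one])
      (fun p => (p.1 : ℝ) / (top p : ℝ))
    filter_upwards [h1] with ξ hξ τ hτ κ
    have h2 := hξ τ (by norm_num; linarith) κ
    simp only [Real.dist_eq] at h2
    exact h2

end Pool.Agent.Results.MP_14cf73_nt.TriplesNearAPoint
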